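import Pool.Agent.HeckeM.CoeffR

/-!
# The coefficients of the partial zeta functions, modulus `m`
-/

set_option autoImplicit false

noncomputable section

open NumberField Module Pool.Agent.StarkRQ Pool.Agent.StarkU

namespace Pool.Agent.HeckeM

variable {K H : Type} [Field K] [NumberField K] [Field H] [NumberField H] [Algebra K H]
  [IsAbelianGalois K H]

/-- the number of ideals of norm `n`, prime to `m`, with Artin symbol `τ` -/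
private theorem zcI_eq_sum {m : Ideal (𝓞 K)}
    (hur : ∀ 𝔮 : Ideal (𝓞 K), 𝔮.IsPrime → 𝔮 ≠ ⊥ → IsCoprime 𝔮 m → UnrAt H 𝔮) {n : ℕ} (hn : n ≠ 0)
    [Fintype {𝔞 : Ideal (𝓞 K) // Ideal.absNorm 𝔞 = n}]
    [DecidableEq Gal(H/K)] [DecidablePred fun 𝔞 : Ideal (𝓞 K) => IsCoprime 𝔞 m]
    (τ : Gal(H/K)) :
    (zcI m τ n : ℤ) = ∑ 𝔞 : {𝔞 : Ideal (𝓞 K) // Ideal.absNorm 𝔞 = n},
      if IsCoprime 𝔞.1 m then (if (art 𝔞.1 : Gal(H/K)) = τ then 1 else 0) else 0 := by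
  classical
  have h1 : ∀ x : {𝔞 : Ideal (𝓞 K) // Ideal.absNorm 𝔞 = n},
      (IsCoprime x.1 m ∧ HasArtinSymbol x.1 τ) ↔
        (IsCoprime x.1 m ∧ (art x.1 : Gal(H/K)) = τ) := by
    intro x
    have h0 : x.1 ≠ ⊥ := by
      intro h
      apply hn
      rw [← x.2, h, Ideal.absNorm_bot]
    refine and_congr_right fun hc => ?_
    rw [artM_iff hur h0 hc τ]
    exact eq_comm
  have e1 : {𝔞 : Ideal (𝓞 K) // Ideal.absNorm 𝔞 = n ∧ IsCoprime 𝔞 m ∧ HasArtinSymbol 𝔞 τ} ≃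
      {x : {𝔞 : Ideal (𝓞 K) // Ideal.absNorm 𝔞 = n} //
        IsCoprime x.1 m ∧ (art x.1 : Gal(H/K)) = τ} :=
    (Equiv.subtypeSubtypeEquivSubtypeInter (fun 𝔞 : Ideal (𝓞 K) => Ideal.absNorm 𝔞 = n)
      (fun 𝔞 => IsCoprime 𝔞 m ∧ HasArtinSymbol 𝔞 τ)).symm.trans (Equiv.subtypeEquivRight h1)
  unfold zcI
  rw [Nat.card_congr e1, Nat.card_eq_fintype_card, Fintype.card_subtype, ← Finset.sum_boole]
  refine Finset.sum_congr rfl fun x _ => ?_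
  by_cases h : IsCoprime x.1 m
  · simp [h]
  · simp [h]

private theorem zcI_comb {ι₂ : K →+* ℝ} {m : Ideal (𝓞 K)}
    (hur : ∀ 𝔮 : Ideal (𝓞 K), 𝔮.IsPrime → 𝔮 ≠ ⊥ → IsCoprime 𝔮 m → UnrAt H 𝔮)
    (hmod : ∀ α : 𝓞 K, α - 1 ∈ m → 0 < ι₂ (α : K) →
      HasArtinSymbol (Ideal.span {α}) (1 : Gal(H/K)))
    {R : Gal(H/K)} (hRR : R * R = 1) (hR : ∀ α : 𝓞 K, α - 1 ∈ m → ι₂ (α : K) < 0 →
      HasArtinSymbol (Ideal.span {α}) R) {B : Finset (Ideal (𝓞 K))}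
    (hB : ∀ 𝔟 ∈ B, 𝔟 ≠ ⊥ ∧ IsCoprime 𝔟 m)
    (hB' : ∀ 𝔞 : Ideal (𝓞 K), 𝔞 ≠ ⊥ → IsCoprime 𝔞 m →
        ∃! 𝔟, 𝔟 ∈ B ∧ ∃ α : 𝓞 K, α - 1 ∈ m ∧ 𝔞 * 𝔟 = Ideal.span {α})
    (j : ℕ) (σ : Gal(H/K)) : ∃ e : Ideal (𝓞 K) → ℤ, ∀ n : ℕ, n ≠ 0 →
      (zcI m σ n : ℤ) + (-1) ^ j * zcI m (R * σ) n =
        ∑ 𝔟 ∈ B, e 𝔟 * rcoefI ι₂ m 𝔟 j n := by
  classical
  have hεε : ((-1 : ℤ) ^ j) * (-1) ^ j = 1 := by
    rw [← mul_pow]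
    norm_num
  refine ⟨fun 𝔟 => (if (art 𝔟 : Gal(H/K))⁻¹ = σ then 1 else 0) +
    (-1) ^ j * (if (art 𝔟 : Gal(H/K))⁻¹ = R * σ then 1 else 0), fun n hn => ?_⟩
  have hfin : Finite {𝔞 : Ideal (𝓞 K) // Ideal.absNorm 𝔞 = n} :=
    (Ideal.finite_setOfPred_absNorm_eq (S := 𝓞 K) n).to_subtype
  have := Fintype.ofFinite {𝔞 : Ideal (𝓞 K) // Ideal.absNorm 𝔞 = n}
  have hr : ∀ 𝔟, rcoefI ι₂ m 𝔟 j n =
      ∑ 𝔞 : {𝔞 : Ideal (𝓞 K) // Ideal.absNorm 𝔞 = n}, sgnI ι₂ m 𝔟 j 𝔞 := fun 𝔟 =>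
    finsum_eq_sum_of_fintype _
  simp only [hr, Finset.mul_sum]
  rw [Finset.sum_comm]
  rw [zcI_eq_sum hur hn, zcI_eq_sum hur hn, Finset.mul_sum, ← Finset.sum_add_distrib]
  refine Finset.sum_congr rfl fun 𝔞 _ => ?_
  have h0 : 𝔞.1 ≠ ⊥ := by
    intro h
    apply hn
    rw [← 𝔞.2, h, Ideal.absNorm_bot]
  by_cases hca : IsCoprime 𝔞.1 m
  · rw [if_pos hca, if_pos hca]
    obtain ⟨𝔟, ⟨hb, hα⟩, huniq⟩ := hB' 𝔞.1 h0 hca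
    obtain ⟨hb0, hbN⟩ := hB 𝔟 hb
    rw [Finset.sum_eq_single 𝔟]
    · have hs : sgnI ι₂ m 𝔟 j 𝔞.1 =
          ((SignType.sign (ι₂ (hα.choose : K)) : ℤ)) ^ j := by
        unfold sgnI
        rw [dif_pos hα]
      obtain ⟨hα1, hα2⟩ := hα.choose_spec
      set α : 𝓞 K := hα.choose with hαdef
      have hab0 : 𝔞.1 * 𝔟 ≠ ⊥ := by
        rw [← Ideal.zero_eq_bot] at h0 hb0 ⊢
        exact mul_ne_zero h0 hb0
      have hαne : ι₂ (α : K) ≠ 0 := by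
        intro h
        have h1 : (α : K) = 0 := (map_eq_zero ι₂).1 h
        have h2 : α = 0 := by exact_mod_cast h1
        rw [h2] at hα2
        apply hab0
        rw [hα2]
        simp
      have ha : HasArtinSymbol 𝔞.1 (art 𝔞.1 : Gal(H/K)) := (artM_iff hur h0 hca _).2 rfl
      have hb' : HasArtinSymbol 𝔟 (art 𝔟 : Gal(H/K)) := (artM_iff hur hb0 hbN _).2 rfl
      have hab := hasArt_mul ha hb'
      have hcab : IsCoprime (𝔞.1 * 𝔟) m := IsCoprime.mul_left hca hbN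
      rw [hs]
      rcases lt_or_gt_of_ne hαne with hneg | hpos
      · -- negative
        have h1 : (art 𝔞.1 : Gal(H/K)) * art 𝔟 = R :=
          artM_unique hur hab0 hcab hab (by rw [hα2]; exact hR α hα1 hneg)
        have h2 : (art 𝔟 : Gal(H/K))⁻¹ = R * art 𝔞.1 := by
          have h3 : (art 𝔟 : Gal(H/K))⁻¹ = R⁻¹ * art 𝔞.1 := by
            rw [← h1]
            group
          rw [h3]
          congr 1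
          exact inv_eq_of_mul_eq_one_left hRR
        have h4 : R * (art 𝔞.1 : Gal(H/K)) = σ ↔ (art 𝔞.1 : Gal(H/K)) = R * σ := by
          constructor
          · intro h
            rw [← h, ← mul_assoc, hRR, one_mul]
          · intro h
            rw [h, ← mul_assoc, hRR, one_mul]
        rw [h2, sign_neg hneg]
        simp only [mul_right_inj, h4]
        simp only [SignType.coe_neg, SignType.coe_one]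
        linear_combination (-(if (art 𝔞.1 : Gal(H/K)) = σ then (1 : ℤ) else 0)) * hεε
      · have h1 : (art 𝔞.1 : Gal(H/K)) * art 𝔟 = 1 :=
          artM_unique hur hab0 hcab hab (by rw [hα2]; exact hmod α hα1 hpos)
        have h2 : (art 𝔟 : Gal(H/K))⁻¹ = art 𝔞.1 := inv_eq_of_mul_eq_one_left h1
        rw [h2, sign_pos hpos]
        simp
    · intro 𝔟' hb'' hne
      have h1 : sgnI ι₂ m 𝔟' j 𝔞.1 = 0 := by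
        unfold sgnI
        rw [dif_neg fun h => hne (huniq 𝔟' ⟨hb'', h⟩)]
      rw [h1, mul_zero]
    · intro h
      exact absurd hb h
  · rw [if_neg hca, if_neg hca, mul_zero, add_zero]
    symm
    refine Finset.sum_eq_zero fun 𝔟 _ => ?_
    have h1 : sgnI ι₂ m 𝔟 j 𝔞.1 = 0 := by
      unfold sgnI
      rw [dif_neg]
      rintro ⟨α, hα1, hα2⟩
      apply hca
      have h2 := isCoprime_span_one hα1
      rw [← hα2] at h2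
      exact h2.of_mul_left_left
    rw [h1, mul_zero]

theorem zcI_even {ι₂ : K →+* ℝ} {m : Ideal (𝓞 K)}
    (hur : ∀ 𝔮 : Ideal (𝓞 K), 𝔮.IsPrime → 𝔮 ≠ ⊥ → IsCoprime 𝔮 m → UnrAt H 𝔮)
    (hmod : ∀ α : 𝓞 K, α - 1 ∈ m → 0 < ι₂ (α : K) →
      HasArtinSymbol (Ideal.span {α}) (1 : Gal(H/K)))
    {R : Gal(H/K)} (hRR : R * R = 1) (hR : ∀ α : 𝓞 K, α - 1 ∈ m → ι₂ (α : K) < 0 →
      HasArtinSymbol (Ideal.span {α}) R) {B : Finset (Ideal (𝓞 K))}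
    (hB : ∀ 𝔟 ∈ B, 𝔟 ≠ ⊥ ∧ IsCoprime 𝔟 m)
    (hB' : ∀ 𝔞 : Ideal (𝓞 K), 𝔞 ≠ ⊥ → IsCoprime 𝔞 m →
        ∃! 𝔟, 𝔟 ∈ B ∧ ∃ α : 𝓞 K, α - 1 ∈ m ∧ 𝔞 * 𝔟 = Ideal.span {α})
    (σ : Gal(H/K)) : ∃ e : Ideal (𝓞 K) → ℤ, ∀ n : ℕ, n ≠ 0 →
      (zcI m σ n : ℤ) + zcI m (R * σ) n = ∑ 𝔟 ∈ B, e 𝔟 * rcoefI ι₂ m 𝔟 0 n := by
  obtain ⟨e, he⟩ := zcI_comb hur hmod hRR hR hB hB' 0 σ
  refine ⟨e, fun n hn => ?_⟩
  have h := he n hn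
  rw [pow_zero, one_mul] at h
  exact h

theorem zcI_odd {ι₂ : K →+* ℝ} {m : Ideal (𝓞 K)}
    (hur : ∀ 𝔮 : Ideal (𝓞 K), 𝔮.IsPrime → 𝔮 ≠ ⊥ → IsCoprime 𝔮 m → UnrAt H 𝔮)
    (hmod : ∀ α : 𝓞 K, α - 1 ∈ m → 0 < ι₂ (α : K) →
      HasArtinSymbol (Ideal.span {α}) (1 : Gal(H/K)))
    {R : Gal(H/K)} (hRR : R * R = 1) (hR : ∀ α : 𝓞 K, α - 1 ∈ m → ι₂ (α : K) < 0 →
      HasArtinSymbol (Ideal.span {α}) R) {B : Finset (Ideal (𝓞 K))}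
    (hB : ∀ 𝔟 ∈ B, 𝔟 ≠ ⊥ ∧ IsCoprime 𝔟 m)
    (hB' : ∀ 𝔞 : Ideal (𝓞 K), 𝔞 ≠ ⊥ → IsCoprime 𝔞 m →
        ∃! 𝔟, 𝔟 ∈ B ∧ ∃ α : 𝓞 K, α - 1 ∈ m ∧ 𝔞 * 𝔟 = Ideal.span {α})
    (σ : Gal(H/K)) : ∃ e : Ideal (𝓞 K) → ℤ, ∀ n : ℕ, n ≠ 0 →
      (zcI m σ n : ℤ) - zcI m (R * σ) n = ∑ 𝔟 ∈ B, e 𝔟 * rcoefI ι₂ m 𝔟 1 n := by
  obtain ⟨e, he⟩ := zcI_comb hur hmod hRR hR hB hB' 1 σ
  refine ⟨e, fun n hn => ?_⟩
  have h := he n hn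
  rw [← h]
  ring

end Pool.Agent.HeckeM
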