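import Pool.Agent.HeckeM.Defs

/-!
# Representatives of the ray classes modulo an ideal
-/

set_option autoImplicit false

noncomputable section

open NumberField Module

namespace Pool.Agent.HeckeM

variable {K : Type} [Field K] [NumberField K] {m : Ideal (𝓞 K)}

/-- two ideals in the same ray class modulo `m` (no condition at infinity) -/
def REqI (m : Ideal (𝓞 K)) (𝔞 𝔟 : Ideal (𝓞 K)) : Prop :=
  ∃ a b : 𝓞 K, a ≠ 0 ∧ b ≠ 0 ∧ a - 1 ∈ m ∧ b - 1 ∈ m ∧ Ideal.span {a} * 𝔞 = Ideal.span {b} * 𝔟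

omit [NumberField K] in
private lemma ri_mul {a b : 𝓞 K} (h : a - 1 ∈ m) (h' : b - 1 ∈ m) : a * b - 1 ∈ m := by
  have e : a * b - 1 = a * (b - 1) + (a - 1) := by ring
  rw [e]
  exact m.add_mem (m.mul_mem_left a h') h

omit [NumberField K] in
theorem REqI.refl (𝔞 : Ideal (𝓞 K)) : REqI m 𝔞 𝔞 :=
  ⟨1, 1, one_ne_zero, one_ne_zero, by simp, by simp, rfl⟩

omit [NumberField K] in
theorem REqI.symm {𝔞 𝔟 : Ideal (𝓞 K)} (h : REqI m 𝔞 𝔟) : REqI m 𝔟 𝔞 := by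
  obtain ⟨a, b, ha0, hb0, ha, hb, e⟩ := h
  exact ⟨b, a, hb0, ha0, hb, ha, e.symm⟩

theorem REqI.trans {𝔞 𝔟 𝔠 : Ideal (𝓞 K)} (h : REqI m 𝔞 𝔟) (h' : REqI m 𝔟 𝔠) : REqI m 𝔞 𝔠 := by
  obtain ⟨a, b, ha0, hb0, ha, hb, e⟩ := h
  obtain ⟨c, d, hc0, hd0, hc, hd, e'⟩ := h'
  refine ⟨a * c, b * d, mul_ne_zero ha0 hc0, mul_ne_zero hb0 hd0, ri_mul ha hc,
    ri_mul hb hd, ?_⟩
  rw [← Ideal.span_singleton_mul_span_singleton, ← Ideal.span_singleton_mul_span_singleton,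
    mul_assoc, mul_left_comm, e, mul_left_comm, e', mul_assoc]

theorem REqI.mul {𝔞 𝔟 𝔠 𝔡 : Ideal (𝓞 K)} (h : REqI m 𝔞 𝔟) (h' : REqI m 𝔠 𝔡) :
    REqI m (𝔞 * 𝔠) (𝔟 * 𝔡) := by
  obtain ⟨a, b, ha0, hb0, ha, hb, e⟩ := h
  obtain ⟨c, d, hc0, hd0, hc, hd, e'⟩ := h'
  refine ⟨a * c, b * d, mul_ne_zero ha0 hc0, mul_ne_zero hb0 hd0, ri_mul ha hc,
    ri_mul hb hd, ?_⟩
  rw [← Ideal.span_singleton_mul_span_singleton, ← Ideal.span_singleton_mul_span_singleton,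
    mul_mul_mul_comm, e, e', mul_mul_mul_comm]

theorem REqI.cancel {𝔞 𝔟 𝔠 : Ideal (𝓞 K)} (h0 : 𝔠 ≠ ⊥) (h : REqI m (𝔞 * 𝔠) (𝔟 * 𝔠)) :
    REqI m 𝔞 𝔟 := by
  obtain ⟨a, b, ha0, hb0, ha, hb, e⟩ := h
  refine ⟨a, b, ha0, hb0, ha, hb, ?_⟩
  rw [← mul_assoc, ← mul_assoc] at e
  exact mul_right_cancel₀ h0 e

/-- every ideal divides a principal ideal with cofactor prime to `m` -/
private lemma ri_key0 (hm : m ≠ ⊥) {𝔞 : Ideal (𝓞 K)} (h0 : 𝔞 ≠ ⊥) :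
    ∃ (a : 𝓞 K) (𝔟 : Ideal (𝓞 K)), a ≠ 0 ∧ 𝔟 ≠ ⊥ ∧ IsCoprime 𝔟 m ∧ Ideal.span {a} = 𝔞 * 𝔟 := by
  have hI0 : 𝔞 * m ≠ ⊥ := mul_ne_zero h0 hm
  obtain ⟨a, ha0, ha⟩ : ∃ a : 𝓞 K, a ≠ 0 ∧ 𝔞 * m ⊔ Ideal.span {a} = 𝔞 := by
    obtain ⟨a, ha⟩ := IsDedekindDomain.exists_sup_span_eq
      (Ideal.mul_le_left : 𝔞 * m ≤ 𝔞) hI0
    by_cases h : a = 0
    · obtain ⟨x, hx, hx0⟩ := Submodule.exists_mem_ne_zero_of_ne_bot hI0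
      refine ⟨x, hx0, ?_⟩
      have h1 : Ideal.span {x} ≤ 𝔞 * m := by
        rw [Ideal.span_singleton_le_iff_mem]
        exact hx
      rw [sup_eq_left.2 h1]
      rwa [h, Ideal.span_singleton_eq_bot.2 rfl, sup_bot_eq] at ha
    · exact ⟨a, h, ha⟩
  have hmem : a ∈ 𝔞 := by
    have h1 : Ideal.span {a} ≤ 𝔞 := by
      exact le_sup_right.trans ha.le
    exact h1 (Ideal.mem_span_singleton_self _)
  obtain ⟨𝔟, hb⟩ := Ideal.dvd_span_singleton.2 hmem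
  refine ⟨a, 𝔟, ha0, ?_, ?_, hb⟩
  · rintro rfl
    apply ha0
    rw [← Ideal.span_singleton_eq_bot, hb]
    exact mul_zero _
  · rw [Ideal.isCoprime_iff_sup_eq, sup_comm]
    rw [hb, ← Ideal.mul_sup] at ha
    have h1 : 𝔞 * (m ⊔ 𝔟) = 𝔞 * ⊤ := by rw [ha, Ideal.mul_top]
    exact mul_left_cancel₀ h0 h1

omit [NumberField K] in
/-- an element prime to `m` has a nonzero inverse modulo `m` -/
private lemma ri_inv {a : 𝓞 K} (h : IsCoprime (Ideal.span {a}) m) :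
    ∃ u : 𝓞 K, u ≠ 0 ∧ u * a - 1 ∈ m := by
  obtain ⟨x, hx, y, hy, hxy⟩ := Ideal.isCoprime_iff_exists.1 h
  obtain ⟨u, rfl⟩ := Ideal.mem_span_singleton'.1 hx
  have h1 : u * a - 1 ∈ m := by
    have h2 : u * a - 1 = -y := by linear_combination hxy
    rw [h2]
    exact m.neg_mem hy
  by_cases hu : u = 0
  · refine ⟨1, one_ne_zero, ?_⟩
    have h3 : m = ⊤ := by
      rw [Ideal.eq_top_iff_one]
      have h4 := m.neg_mem h1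
      rwa [hu, zero_mul, zero_sub, neg_neg] at h4
    rw [h3]
    trivial
  · exact ⟨u, hu, h1⟩

omit [NumberField K] in
/-- an element congruent to `1` modulo `m` is prime to `m` -/
theorem isCoprime_span {a b : 𝓞 K} (h : a * b - 1 ∈ m) : IsCoprime (Ideal.span {a}) m := by
  refine Ideal.isCoprime_iff_exists.2 ⟨a * b, Ideal.mem_span_singleton.2 (dvd_mul_right _ _),
    1 - a * b, ?_, by ring⟩
  have h2 := m.neg_mem h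
  rwa [neg_sub] at h2

private lemma ri_key (hm : m ≠ ⊥) {𝔞 : Ideal (𝓞 K)} (h0 : 𝔞 ≠ ⊥) (hp : IsCoprime 𝔞 m) :
    ∃ (b : 𝓞 K) (𝔟 : Ideal (𝓞 K)), b ≠ 0 ∧ b - 1 ∈ m ∧ 𝔟 ≠ ⊥ ∧ IsCoprime 𝔟 m ∧
      Ideal.span {b} = 𝔞 * 𝔟 := by
  obtain ⟨a, 𝔟, ha0, hb0, hbp, hab⟩ := ri_key0 hm h0
  have haN : IsCoprime (Ideal.span {a}) m := by
    rw [hab]
    exact IsCoprime.mul_left hp hbp
  obtain ⟨u, hu0, hu⟩ := ri_inv haN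
  refine ⟨u * a, Ideal.span {u} * 𝔟, mul_ne_zero hu0 ha0, hu, ?_, ?_, ?_⟩
  · refine mul_ne_zero ?_ hb0
    rw [Ne, Ideal.zero_eq_bot, Ideal.span_singleton_eq_bot]
    exact hu0
  · exact IsCoprime.mul_left (isCoprime_span hu) hbp
  · rw [← Ideal.span_singleton_mul_span_singleton, hab, mul_left_comm]

/-- inverse classes -/
private theorem ri_exists_inv (hm : m ≠ ⊥) {𝔞 : Ideal (𝓞 K)} (h0 : 𝔞 ≠ ⊥)
    (hp : IsCoprime 𝔞 m) :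
    ∃ 𝔟 : Ideal (𝓞 K), 𝔟 ≠ ⊥ ∧ IsCoprime 𝔟 m ∧ REqI m (𝔞 * 𝔟) ⊤ := by
  obtain ⟨b, 𝔟, hb0, hb, hb'0, hb'p, e⟩ := ri_key hm h0 hp
  refine ⟨𝔟, hb'0, hb'p, 1, b, one_ne_zero, hb0, by simp, hb, ?_⟩
  rw [e, Ideal.span_singleton_one, Ideal.top_mul, Ideal.mul_top]

private theorem ri_exists_cls (hm : m ≠ ⊥) : ∃ G : Finset (Ideal (𝓞 K)),
    (∀ 𝔤 ∈ G, 𝔤 ≠ ⊥) ∧ (∀ 𝔤 ∈ G, IsCoprime 𝔤 m) ∧
    (∀ 𝔞 : Ideal (𝓞 K), 𝔞 ≠ ⊥ → IsCoprime 𝔞 m → ∃ 𝔤 ∈ G, REqI m 𝔞 𝔤) ∧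
    ∀ 𝔤 ∈ G, ∀ 𝔥 ∈ G, REqI m 𝔤 𝔥 → 𝔤 = 𝔥 := by
  classical
  have hfin : Finite (𝓞 K ⧸ m) := Ideal.finiteQuotientOfFreeOfNeBot _ hm
  -- ideals in the inverse classes
  have hcl : ∀ j : ClassGroup (𝓞 K), ∃ 𝔟 : Ideal (𝓞 K), 𝔟 ≠ ⊥ ∧ IsCoprime 𝔟 m ∧
      ∀ 𝔞 : nonZeroDivisors (Ideal (𝓞 K)), ClassGroup.mk0 𝔞 = j →
        ∃ z : 𝓞 K, (𝔞 : Ideal (𝓞 K)) * 𝔟 = Ideal.span {z} := by
    intro j
    obtain ⟨𝔠, h𝔠⟩ := ClassGroup.mk0_surjective j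
    obtain ⟨a, 𝔟, ha0, hb0, hbp, hab⟩ := ri_key0 hm (nonZeroDivisors.coe_ne_zero 𝔠)
    refine ⟨𝔟, hb0, hbp, fun 𝔞 h𝔞 => ?_⟩
    have hbm : 𝔟 ∈ nonZeroDivisors (Ideal (𝓞 K)) := mem_nonZeroDivisors_of_ne_zero hb0
    have h1 : ClassGroup.mk0 (𝔞 * ⟨𝔟, hbm⟩) = 1 := by
      rw [map_mul, h𝔞, ← h𝔠, ← map_mul]
      have h2 : (𝔠 * ⟨𝔟, hbm⟩ : nonZeroDivisors (Ideal (𝓞 K))) =
          ⟨Ideal.span {a}, by
            rw [hab]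
            exact mul_mem 𝔠.2 hbm⟩ := Subtype.ext hab.symm
      rw [h2, ClassGroup.mk0_eq_one_iff]
      exact ⟨a, rfl⟩
    have h3 : (𝔞 * ⟨𝔟, hbm⟩ : nonZeroDivisors (Ideal (𝓞 K))) =
        ⟨(𝔞 : Ideal (𝓞 K)) * 𝔟, mul_mem 𝔞.2 hbm⟩ := rfl
    rw [h3, ClassGroup.mk0_eq_one_iff] at h1
    obtain ⟨z, hz⟩ := h1
    exact ⟨z, hz⟩
  choose B hB0 hBp hB using hcl
  let X : Type := {𝔞 : Ideal (𝓞 K) // 𝔞 ≠ ⊥ ∧ IsCoprime 𝔞 m}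
  let nz : X → nonZeroDivisors (Ideal (𝓞 K)) := fun x =>
    ⟨x.1, mem_nonZeroDivisors_of_ne_zero x.2.1⟩
  have hz : ∀ x : X, ∃ z : 𝓞 K, x.1 * B (ClassGroup.mk0 (nz x)) = Ideal.span {z} :=
    fun x => hB _ (nz x) rfl
  choose z hz using hz
  let r : Setoid X := ⟨fun x y => REqI m x.1 y.1, fun x => REqI.refl _, fun h => h.symm,
    fun h h' => h.trans h'⟩
  let F : Quotient r → ClassGroup (𝓞 K) × (𝓞 K ⧸ m) := fun q =>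
    (ClassGroup.mk0 (nz q.out), Ideal.Quotient.mk _ (z q.out))
  have hF : Function.Injective F := by
    intro q q' h
    have h1 : ClassGroup.mk0 (nz q.out) = ClassGroup.mk0 (nz q'.out) := congrArg Prod.fst h
    have h2 : Ideal.Quotient.mk m (z q.out) =
      Ideal.Quotient.mk m (z q'.out) := congrArg Prod.snd h
    rw [Ideal.Quotient.eq] at h2
    have e1 := hz q.out
    have e2 := hz q'.out
    rw [← h1] at e2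
    have hB0' := hB0 (ClassGroup.mk0 (nz q.out))
    have hz0 : z q.out ≠ 0 := by
      intro h3
      rw [h3, Ideal.span_singleton_eq_bot.2 rfl] at e1
      exact mul_ne_zero q.out.2.1 hB0' e1
    have hz0' : z q'.out ≠ 0 := by
      intro h3
      rw [h3, Ideal.span_singleton_eq_bot.2 rfl] at e2
      exact mul_ne_zero q'.out.2.1 hB0' e2
    have hco : IsCoprime (Ideal.span {z q.out}) m := by
      rw [← e1]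
      exact IsCoprime.mul_left q.out.2.2 (hBp _)
    obtain ⟨y, hy0, hy1⟩ := ri_inv hco
    have hy2 : y * z q'.out - 1 ∈ m := by
      have h3 : y * z q'.out - 1 = (y * z q.out - 1) - y * (z q.out - z q'.out) := by ring
      rw [h3]
      exact m.sub_mem hy1 (m.mul_mem_left _ h2)
    have h4 : REqI m (q.out.1 * B (ClassGroup.mk0 (nz q.out)))
        (q'.out.1 * B (ClassGroup.mk0 (nz q.out))) := by
      refine ⟨y * z q'.out, y * z q.out, mul_ne_zero hy0 hz0', mul_ne_zero hy0 hz0, hy2, hy1, ?_⟩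
      rw [e1, e2, Ideal.span_singleton_mul_span_singleton,
        Ideal.span_singleton_mul_span_singleton]
      congr 2
      ring
    have h5 : REqI m q.out.1 q'.out.1 := h4.cancel hB0'
    have h6 : (Quotient.mk r q.out) = Quotient.mk r q'.out := Quotient.sound h5
    rwa [Quotient.out_eq, Quotient.out_eq] at h6
  have hq : Finite (Quotient r) := Finite.of_injective F hF
  refine ⟨(Set.finite_range fun q : Quotient r => q.out.1).toFinset, ?_, ?_, ?_, ?_⟩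
  · intro 𝔤 h𝔤
    obtain ⟨q, rfl⟩ := (Set.Finite.mem_toFinset _).1 h𝔤
    exact q.out.2.1
  · intro 𝔤 h𝔤
    obtain ⟨q, rfl⟩ := (Set.Finite.mem_toFinset _).1 h𝔤
    exact q.out.2.2
  · intro 𝔞 h𝔞0 h𝔞p
    refine ⟨(Quotient.mk r ⟨𝔞, h𝔞0, h𝔞p⟩).out.1, (Set.Finite.mem_toFinset _).2 ⟨_, rfl⟩, ?_⟩
    have h1 : (Quotient.mk r (Quotient.mk r (⟨𝔞, h𝔞0, h𝔞p⟩ : X)).out) =
      Quotient.mk r ⟨𝔞, h𝔞0, h𝔞p⟩ := Quotient.out_eq _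
    exact (Quotient.exact h1).symm
  · intro 𝔤 h𝔤 𝔥 h𝔥 h
    obtain ⟨q, rfl⟩ := (Set.Finite.mem_toFinset _).1 h𝔤
    obtain ⟨q', rfl⟩ := (Set.Finite.mem_toFinset _).1 h𝔥
    have h1 : (Quotient.mk r q.out) = Quotient.mk r q'.out := Quotient.sound h
    rw [Quotient.out_eq, Quotient.out_eq] at h1
    rw [h1]

private theorem ri_iff {𝔠 : Ideal (𝓞 K)} (h0 : 𝔠 ≠ ⊥) :
    REqI m 𝔠 ⊤ ↔ ∃ α : 𝓞 K, α - 1 ∈ m ∧ 𝔠 = Ideal.span {α} := by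
  constructor
  · rintro ⟨a, b, ha0, hb0, ha, hb, e⟩
    rw [Ideal.mul_top] at e
    have h1 : Ideal.span {b} ≤ Ideal.span {a} := by
      rw [← e]
      exact Ideal.mul_le_left
    obtain ⟨x, rfl⟩ := Ideal.mem_span_singleton.1 (h1 (Ideal.mem_span_singleton_self b))
    refine ⟨x, ?_, ?_⟩
    · have h2 : x - 1 = (a * x - 1) - x * (a - 1) := by ring
      rw [h2]
      exact m.sub_mem hb (m.mul_mem_left x ha)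
    · rw [← Ideal.span_singleton_mul_span_singleton] at e
      refine mul_left_cancel₀ ?_ e
      rw [Ne, Ideal.zero_eq_bot, Ideal.span_singleton_eq_bot]
      exact ha0
  · rintro ⟨α, hα, rfl⟩
    refine ⟨1, α, one_ne_zero, ?_, by simp, hα, ?_⟩
    · rintro rfl
      exact h0 (by simp)
    · rw [Ideal.span_singleton_one, Ideal.top_mul, Ideal.mul_top]

theorem exists_repsI (hm : m ≠ ⊥) :
    ∃ B : Finset (Ideal (𝓞 K)), (∀ 𝔟 ∈ B, 𝔟 ≠ ⊥ ∧ IsCoprime 𝔟 m) ∧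
      ∀ 𝔞 : Ideal (𝓞 K), 𝔞 ≠ ⊥ → IsCoprime 𝔞 m →
        ∃! 𝔟, 𝔟 ∈ B ∧ ∃ α : 𝓞 K, α - 1 ∈ m ∧ 𝔞 * 𝔟 = Ideal.span {α} := by
  classical
  obtain ⟨G, hG1, hG2, hG3, hG4⟩ := ri_exists_cls hm
  have hex : ∀ 𝔤 : G, ∃ 𝔟 : Ideal (𝓞 K), 𝔟 ≠ ⊥ ∧ IsCoprime 𝔟 m ∧
      REqI m ((𝔤 : Ideal (𝓞 K)) * 𝔟) ⊤ := fun 𝔤 =>
    ri_exists_inv hm (hG1 _ 𝔤.2) (hG2 _ 𝔤.2)
  choose b hb0 hbp hb using hex
  have hmem : ∀ 𝔟, 𝔟 ∈ G.attach.image b ↔ ∃ 𝔤, b 𝔤 = 𝔟 := by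
    intro 𝔟
    simp
  refine ⟨G.attach.image b, ?_, ?_⟩
  · intro 𝔟 h𝔟
    obtain ⟨𝔤, rfl⟩ := (hmem 𝔟).1 h𝔟
    exact ⟨hb0 𝔤, hbp 𝔤⟩
  · intro 𝔞 h0 h𝔞
    obtain ⟨𝔤, h𝔤, hr⟩ := hG3 𝔞 h0 h𝔞
    refine ⟨b ⟨𝔤, h𝔤⟩, ⟨(hmem _).2 ⟨_, rfl⟩, ?_⟩, ?_⟩
    · refine (ri_iff (mul_ne_zero h0 (hb0 _))).1 ?_
      exact (hr.mul (REqI.refl _)).trans (hb ⟨𝔤, h𝔤⟩)
    · rintro 𝔟 ⟨h𝔟, h1⟩
      obtain ⟨𝔥, rfl⟩ := (hmem 𝔟).1 h𝔟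
      have h2 := (ri_iff (mul_ne_zero h0 (hb0 _))).2 h1
      have h3 : REqI m (𝔞 * b 𝔥) ((𝔥 : Ideal (𝓞 K)) * b 𝔥) := h2.trans (hb 𝔥).symm
      have h4 : REqI m 𝔞 (𝔥 : Ideal (𝓞 K)) := h3.cancel (hb0 𝔥)
      have h5 : (𝔥 : Ideal (𝓞 K)) = 𝔤 := hG4 _ 𝔥.2 _ h𝔤 (h4.symm.trans hr)
      have h6 : 𝔥 = ⟨𝔤, h𝔤⟩ := Subtype.ext h5
      rw [h6]

end Pool.Agent.HeckeM
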