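import Pool.Agent.HeckeM.Fund
import Pool.Agent.HeckeM.Reps
import Pool.Agent.StarkU.ArtU

/-!
# The Artin symbol of the elements congruent to `1` modulo `m` which are negative at `∞₂`
-/

set_option autoImplicit false

noncomputable section

open NumberField Module Pool.Agent.StarkRQ Pool.Agent.StarkU

namespace Pool.Agent.HeckeM

variable {K H : Type} [Field K] [NumberField K] [Field H] [NumberField H] [Algebra K H]
  [IsAbelianGalois K H]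

omit [NumberField K] [NumberField H] in
theorem gal_comm (σ τ : Gal(H/K)) : σ * τ = τ * σ := IsMulCommutative.is_comm.comm σ τ

omit [IsAbelianGalois K H] in
/-- the primes which divide an ideal prime to `m` are unramified -/
theorem unrAll {m : Ideal (𝓞 K)}
    (hur : ∀ 𝔮 : Ideal (𝓞 K), 𝔮.IsPrime → 𝔮 ≠ ⊥ → IsCoprime 𝔮 m → UnrAt H 𝔮)
    {𝔞 : Ideal (𝓞 K)} (h : IsCoprime 𝔞 m) : UnrAll H 𝔞 := by
  intro 𝔮 h1 h2 h3
  refine hur 𝔮 h1 h2 ?_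
  obtain ⟨𝔠, rfl⟩ := h3
  exact h.of_mul_left_left

theorem artM_iff {m : Ideal (𝓞 K)}
    (hur : ∀ 𝔮 : Ideal (𝓞 K), 𝔮.IsPrime → 𝔮 ≠ ⊥ → IsCoprime 𝔮 m → UnrAt H 𝔮)
    {𝔞 : Ideal (𝓞 K)} (h0 : 𝔞 ≠ ⊥) (h : IsCoprime 𝔞 m) (σ : Gal(H/K)) :
    HasArtinSymbol 𝔞 σ ↔ σ = art 𝔞 :=
  artU_spec gal_comm h0 (unrAll hur h) σ

theorem artM_unique {m : Ideal (𝓞 K)}
    (hur : ∀ 𝔮 : Ideal (𝓞 K), 𝔮.IsPrime → 𝔮 ≠ ⊥ → IsCoprime 𝔮 m → UnrAt H 𝔮)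
    {𝔞 : Ideal (𝓞 K)} (h0 : 𝔞 ≠ ⊥) (h : IsCoprime 𝔞 m) {σ τ : Gal(H/K)}
    (h1 : HasArtinSymbol 𝔞 σ) (h2 : HasArtinSymbol 𝔞 τ) : σ = τ :=
  ((artM_iff hur h0 h σ).1 h1).trans ((artM_iff hur h0 h τ).1 h2).symm

omit [NumberField K] in
theorem isCoprime_span_one {m : Ideal (𝓞 K)} {α : 𝓞 K} (h : α - 1 ∈ m) :
    IsCoprime (Ideal.span {α}) m := by
  refine isCoprime_span (b := 1) ?_
  rwa [mul_one]

theorem exists_RM {ι₂ : K →+* ℝ} {m : Ideal (𝓞 K)} (hm : m ≠ ⊥)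
    (hur : ∀ 𝔮 : Ideal (𝓞 K), 𝔮.IsPrime → 𝔮 ≠ ⊥ → IsCoprime 𝔮 m → UnrAt H 𝔮)
    (hmod : ∀ α : 𝓞 K, α - 1 ∈ m → 0 < ι₂ (α : K) →
      HasArtinSymbol (Ideal.span {α}) (1 : Gal(H/K))) :
    ∃ R : Gal(H/K), R * R = 1 ∧ (∀ α : 𝓞 K, α - 1 ∈ m → ι₂ (α : K) < 0 →
      HasArtinSymbol (Ideal.span {α}) R) := by
  have hne : ∀ α : 𝓞 K, ι₂ (α : K) ≠ 0 → Ideal.span {α} ≠ ⊥ := by
    intro α h
    rw [Ne, Ideal.span_singleton_eq_bot]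
    rintro rfl
    exact h (by simp)
  have key : ∀ α β : 𝓞 K, α - 1 ∈ m → ι₂ (α : K) < 0 → β - 1 ∈ m →
      ι₂ (β : K) < 0 → ∀ σ τ : Gal(H/K), HasArtinSymbol (Ideal.span {α}) σ →
      HasArtinSymbol (Ideal.span {β}) τ → σ * τ = 1 := by
    intro α β hα hα' hβ hβ' σ τ hσ hτ
    have h1 := fund_mul hα hβ
    have h2 : 0 < ι₂ ((α * β : 𝓞 K) : K) := by
      have : ((α * β : 𝓞 K) : K) = (α : K) * (β : K) := by push_cast; rfl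
      rw [this, map_mul]
      exact mul_pos_of_neg_of_neg hα' hβ'
    have h3 := hmod (α * β) h1 h2
    have h4 := hasArt_mul hσ hτ
    rw [Ideal.span_singleton_mul_span_singleton] at h4
    exact artM_unique hur (hne _ h2.ne') (isCoprime_span_one h1) h4 h3
  set n : ℕ := Ideal.absNorm m with hn
  have hn0 : n ≠ 0 := by
    rw [hn, Ne, Ideal.absNorm_eq_zero_iff]
    exact hm
  have hnm : (n : 𝓞 K) ∈ m := Ideal.absNorm_mem m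
  set α : 𝓞 K := 1 - 2 * (n : 𝓞 K) with hαdef
  have hα : α - 1 ∈ m := by
    have h1 : α - 1 = (-2) * (n : 𝓞 K) := by
      rw [hαdef]
      ring
    rw [h1]
    exact m.mul_mem_left _ hnm
  have hα' : ι₂ (α : K) < 0 := by
    have : (α : K) = 1 - 2 * (n : K) := by
      rw [hαdef]
      push_cast
      rfl
    rw [this, map_sub, map_one, map_mul, map_ofNat, map_natCast]
    have : (1 : ℝ) ≤ n := by exact_mod_cast Nat.one_le_iff_ne_zero.2 hn0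
    linarith
  obtain ⟨R, hR⟩ := artU_exists (M := H) (hne α hα'.ne)
  refine ⟨R, key _ _ hα hα' hα hα' R R hR hR, ?_⟩
  intro β hβ hβ'
  obtain ⟨τ, hτ⟩ := artU_exists (M := H) (hne β hβ'.ne)
  have h1 := key _ _ hα hα' hβ hβ' R τ hR hτ
  have h2 := key _ _ hα hα' hα hα' R R hR hR
  have h3 : τ = R := mul_left_cancel (h1.trans h2.symm)
  rwa [← h3]

theorem unit_posM {ι₂ : K →+* ℝ} {m : Ideal (𝓞 K)}
    (hur : ∀ 𝔮 : Ideal (𝓞 K), 𝔮.IsPrime → 𝔮 ≠ ⊥ → IsCoprime 𝔮 m → UnrAt H 𝔮)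
    {R : Gal(H/K)} (hR : ∀ α : 𝓞 K, α - 1 ∈ m → ι₂ (α : K) < 0 →
      HasArtinSymbol (Ideal.span {α}) R) (h1 : R ≠ 1) (u : (𝓞 K)ˣ)
    (hu : (u : 𝓞 K) - 1 ∈ m) : 0 < ι₂ ((u : 𝓞 K) : K) := by
  by_contra h
  have h0 : ι₂ ((u : 𝓞 K) : K) ≠ 0 := by
    rw [map_ne_zero]
    intro h2
    exact u.ne_zero (RingOfIntegers.coe_eq_zero_iff.1 h2)
  have h2 : ι₂ ((u : 𝓞 K) : K) < 0 := lt_of_le_of_ne (not_lt.1 h) h0
  have h3 := hR u hu h2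
  have htop : HasArtinSymbol (⊤ : Ideal (𝓞 K)) (1 : Gal(H/K)) := ⟨[], by simp, by simp, by simp⟩
  rw [Ideal.span_singleton_eq_top.2 u.isUnit] at h3
  refine h1 (artM_unique hur top_ne_bot ?_ h3 htop)
  rw [← Ideal.one_eq_top]
  exact isCoprime_one_left

end Pool.Agent.HeckeM
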