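import Pool.Agent.HeckeM.Defs

/-!
# The elements of an ideal congruent to `1` modulo `m` as a shifted lattice
-/

set_option autoImplicit false

noncomputable section

open NumberField Module Pool.Agent.HeckeRQ

namespace Pool.Agent.HeckeM

variable {K : Type} [Field K] [NumberField K]

private theorem cos_rat (hK : finrank ℚ K = 2) {ι₁ ι₂ : K →+* ℝ} (hι : ι₁ ≠ ι₂) {x : K}
    (hx : ι₁ x = ι₂ x) : ∃ r : ℚ, (r : K) = x := by
  have h1 : Nat.Prime (finrank ℚ K) := by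
    rw [hK]
    exact Nat.prime_two
  let σ : K →ₐ[ℚ] ℝ := ι₁.toRatAlgHom
  let τ : K →ₐ[ℚ] ℝ := ι₂.toRatAlgHom
  have h2 := (Subalgebra.isSimpleOrder_of_finrank_prime ℚ K h1).eq_bot_or_eq_top
    (AlgHom.equalizer σ τ)
  have hx' : x ∈ AlgHom.equalizer σ τ := hx
  rcases h2 with h2 | h2
  · rw [h2, Algebra.mem_bot] at hx'
    obtain ⟨r, hr⟩ := hx'
    exact ⟨r, by rw [← hr]; exact (eq_ratCast (algebraMap ℚ K) r).symm⟩
  · exfalso
    apply hι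
    ext y
    have h6 : y ∈ AlgHom.equalizer σ τ := by
      rw [h2]
      trivial
    exact h6

private theorem cos_det (hK : finrank ℚ K = 2) {ι₁ ι₂ : K →+* ℝ} (hι : ι₁ ≠ ι₂) {x y : 𝓞 K}
    (h : ∀ s t : ℤ, (s : 𝓞 K) * x + t * y = 0 → s = 0 ∧ t = 0) :
    ι₁ (x : K) * ι₂ (y : K) - ι₁ (y : K) * ι₂ (x : K) ≠ 0 := by
  intro h0
  have hx : x ≠ 0 := by
    rintro rfl
    have := (h 1 0 (by simp)).1
    exact one_ne_zero this
  have hxK : (x : K) ≠ 0 := by rwa [Ne, RingOfIntegers.coe_eq_zero_iff]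
  have h1 : ι₁ (x : K) ≠ 0 := (map_ne_zero ι₁).2 hxK
  have h2 : ι₂ (x : K) ≠ 0 := (map_ne_zero ι₂).2 hxK
  have h3 : ι₁ ((y : K) / x) = ι₂ ((y : K) / x) := by
    rw [map_div₀, map_div₀, div_eq_div_iff h1 h2]
    linarith
  obtain ⟨r, hr⟩ := cos_rat hK hι h3
  have h4 : (y : K) = r * x := by
    rw [hr, div_mul_cancel₀ _ hxK]
  have hd : ((r.den : ℤ) : K) ≠ 0 := by exact_mod_cast r.den_nz
  have h5 : (((-r.num : ℤ) : 𝓞 K)) * x + ((r.den : ℤ) : 𝓞 K) * y = 0 := by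
    apply RingOfIntegers.coe_injective
    simp only [RingOfIntegers.coe_eq_algebraMap] at h4 ⊢
    rw [map_add, map_mul, map_mul, map_intCast, map_intCast, map_zero, h4]
    have h6 : (r : K) = (r.num : K) / ((r.den : ℤ) : K) := by
      rw [Int.cast_natCast]
      exact Rat.cast_def r
    rw [h6]
    field_simp
    push_cast
    ring
  have := (h _ _ h5).2
  exact r.den_nz (by exact_mod_cast this)

theorem exists_coset (hK : finrank ℚ K = 2) {ι₁ ι₂ : K →+* ℝ} (hι : ι₁ ≠ ι₂)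
    {m : Ideal (𝓞 K)} (hm : m ≠ ⊥) {𝔟 : Ideal (𝓞 K)} (h0 : 𝔟 ≠ ⊥) (hb : IsCoprime 𝔟 m) :
    ∃ (L : HeckeRQ.Lat) (v w : ℝ) (φ : ℤ × ℤ ≃ {α : 𝓞 K // α ∈ 𝔟 ∧ α - 1 ∈ m}),
      ∀ p, ι₁ ((φ p : 𝓞 K) : K) = L.fst p + v ∧ ι₂ ((φ p : 𝓞 K) : K) = L.snd p + w := by
  have hr : Module.finrank ℤ (𝓞 K) = 2 := by
    rw [RingOfIntegers.rank, hK]
  have hc : 𝔟 * m ≠ ⊥ := by
    rw [← Ideal.zero_eq_bot] at h0 hm ⊢
    exact mul_ne_zero h0 hm
  let B₀ : Module.Basis (Fin 2) ℤ (𝓞 K) := Module.finBasisOfFinrankEq ℤ (𝓞 K) hr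
  let B : Module.Basis (Fin 2) ℤ (𝔟 * m : Ideal (𝓞 K)) := Ideal.selfBasis B₀ (𝔟 * m) hc
  have hB : ∀ s t : ℤ, (s : 𝓞 K) * (B 0 : 𝓞 K) + t * (B 1 : 𝓞 K) = 0 → s = 0 ∧ t = 0 := by
    intro s t hst
    have h1 : s • B 0 + t • B 1 = 0 := by
      apply Subtype.ext
      simpa [zsmul_eq_mul] using hst
    have h2 := (LinearIndependent.pair_iff (R := ℤ) (x := B 0) (y := B 1)).1 (by
      have h3 := B.linearIndependent
      have h4 : (B : Fin 2 → (𝔟 * m : Ideal (𝓞 K))) = ![B 0, B 1] := by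
        ext i
        fin_cases i <;> rfl
      rwa [h4] at h3) s t h1
    exact h2
  have hdet := cos_det hK hι hB
  set x : 𝓞 K := (B 0 : 𝓞 K) with hx
  set y : 𝓞 K := (B 1 : 𝓞 K) with hy
  have hxb : x ∈ 𝔟 * m := (B 0).2
  have hyb : y ∈ 𝔟 * m := (B 1).2
  have hinf : 𝔟 ⊓ m = 𝔟 * m := (Ideal.mul_eq_inf_of_isCoprime hb).symm
  obtain ⟨α₀, hα0, β₀, hβ0, hab⟩ := Ideal.isCoprime_iff_exists.1 hb
  have hmem : ∀ z ∈ 𝔟 * m, z ∈ 𝔟 ∧ z ∈ m := by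
    intro z hz
    rw [← hinf] at hz
    exact hz
  have hmem' : ∀ z, z ∈ 𝔟 → z ∈ m → z ∈ 𝔟 * m := by
    intro z h1 h2
    rw [← hinf]
    exact ⟨h1, h2⟩
  have hxy : ∀ p : ℤ × ℤ, (p.1 : 𝓞 K) * x + p.2 * y ∈ 𝔟 * m := fun p =>
    (𝔟 * m).add_mem (Ideal.mul_mem_left _ _ hxb) (Ideal.mul_mem_left _ _ hyb)
  let f : ℤ × ℤ → {α : 𝓞 K // α ∈ 𝔟 ∧ α - 1 ∈ m} := fun p =>
    ⟨α₀ + (p.1 * x + p.2 * y), 𝔟.add_mem hα0 (hmem _ (hxy p)).1, by
      have h1 : α₀ + (p.1 * x + p.2 * y) - 1 = (p.1 * x + p.2 * y) - β₀ := by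
        rw [← hab]
        ring
      rw [h1]
      exact m.sub_mem (hmem _ (hxy p)).2 hβ0⟩
  have hf : Function.Bijective f := by
    constructor
    · intro p q hpq
      have h1 : α₀ + (p.1 * x + p.2 * y) = α₀ + (q.1 * x + q.2 * y) :=
        congrArg Subtype.val hpq
      have h2 := add_left_cancel h1
      have h3 := hB (p.1 - q.1) (p.2 - q.2) (by
        push_cast
        linear_combination h2)
      exact Prod.ext (by omega) (by omega)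
    · rintro ⟨α, hα1, hα2⟩
      have h2 : α - α₀ ∈ 𝔟 * m := by
        refine hmem' _ (𝔟.sub_mem hα1 hα0) ?_
        have h3 : α - α₀ = (α - 1) + β₀ := by
          rw [← hab]
          ring
        rw [h3]
        exact m.add_mem hα2 hβ0
      have h4 := B.sum_repr ⟨α - α₀, h2⟩
      rw [Fin.sum_univ_two] at h4
      have h5 : (B.repr ⟨α - α₀, h2⟩ 0 : 𝓞 K) * x + (B.repr ⟨α - α₀, h2⟩ 1 : 𝓞 K) * y =
          α - α₀ := by
        have h6 := congrArg (Subtype.val) h4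
        simpa [zsmul_eq_mul] using h6
      refine ⟨(B.repr ⟨α - α₀, h2⟩ 0, B.repr ⟨α - α₀, h2⟩ 1), Subtype.ext ?_⟩
      show α₀ + ((B.repr ⟨α - α₀, h2⟩ 0 : 𝓞 K) * x + (B.repr ⟨α - α₀, h2⟩ 1 : 𝓞 K) * y) = α
      rw [h5]
      ring
  refine ⟨⟨ι₁ (x : K), ι₁ (y : K), ι₂ (x : K), ι₂ (y : K), hdet⟩, ι₁ (α₀ : K),
    ι₂ (α₀ : K), Equiv.ofBijective f hf, fun p => ?_⟩
  have h1 : ((Equiv.ofBijective f hf p : 𝓞 K) : K) =
      (α₀ : K) + (p.1 * (x : K) + p.2 * (y : K)) := by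
    show (((α₀ + (p.1 * x + p.2 * y) : 𝓞 K)) : K) = _
    simp only [RingOfIntegers.coe_eq_algebraMap, map_add, map_mul, map_intCast]
  rw [h1]
  simp only [map_add, map_mul, map_intCast, HeckeRQ.Lat.fst, HeckeRQ.Lat.snd]
  constructor <;> ring

end Pool.Agent.HeckeM
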