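import Pool.Agent.HeckeRQ.Defs

/-!
# Partial zeta functions without the Euler factors at the primes which divide an ideal
-/

set_option autoImplicit false

open NumberField Pool.Agent.StarkRQ

namespace Pool.Agent.HeckeM

section

variable {F L : Type*} [Field F] [NumberField F] [Field L] [NumberField L] [Algebra F L]

/-- The number of ideals of `F` of norm `n` which are prime to `m` and have Artin symbol `σ`. -/
noncomputable def zcI (m : Ideal (𝓞 F)) (σ : Gal(L/F)) (n : ℕ) : ℕ :=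
  Nat.card {a : Ideal (𝓞 F) // Ideal.absNorm a = n ∧ IsCoprime a m ∧ HasArtinSymbol a σ}

/-- `Z` is the partial zeta function of `σ`: the continuation to `ℂ ∖ {1}` of the sum of
`(N a)^(-s)` over the ideals `a` which are prime to `m` and have Artin symbol `σ`. -/
def IsPZ (m : Ideal (𝓞 F)) (σ : Gal(L/F)) (Z : ℂ → ℂ) : Prop :=
  DifferentiableOn ℂ Z {1}ᶜ ∧ ∀ s : ℂ, 1 < s.re → Z s = LSeries (fun n => (zcI m σ n : ℂ)) s

end

section

variable {K : Type*} [Field K] [NumberField K]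

/-- the sign (if `j = 1`) of a generator congruent to `1` modulo `m` of the ideal `𝔞 𝔟` -/
noncomputable def sgnI (ι₂ : K →+* ℝ) (m : Ideal (𝓞 K)) (𝔟 : Ideal (𝓞 K)) (j : ℕ)
    (𝔞 : Ideal (𝓞 K)) : ℤ :=
  open Classical in
  if h : ∃ α : 𝓞 K, α - 1 ∈ m ∧ 𝔞 * 𝔟 = Ideal.span {α} then
    ((SignType.sign (ι₂ (h.choose : K)) : ℤ)) ^ j
  else 0

/-- the coefficients of the zeta function of a ray class -/
noncomputable def rcoefI (ι₂ : K →+* ℝ) (m : Ideal (𝓞 K)) (𝔟 : Ideal (𝓞 K)) (j n : ℕ) : ℤ :=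
  ∑ᶠ 𝔞 : {𝔞 : Ideal (𝓞 K) // Ideal.absNorm 𝔞 = n}, sgnI ι₂ m 𝔟 j 𝔞

end

end Pool.Agent.HeckeM
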