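import Pool.Agent.HeckeM.Hecke
import Pool.Agent.HeckeRQ.Literal

/-!
# The literal form of the question, with an ideal of `K` as the finite part of the modulus
-/

set_option autoImplicit false

noncomputable section

open NumberField Module Pool.Agent.StarkRQ Pool.Agent.StarkU

namespace Pool.Agent.HeckeM

/-- the coefficients do not change if `m` is replaced by a power -/
theorem zcI_pow {F L : Type*} [Field F] [NumberField F] [Field L] [NumberField L] [Algebra F L]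
    (m : Ideal (𝓞 F)) {r : ℕ} (hr : 0 < r) (σ : Gal(L/F)) (n : ℕ) :
    zcI (m ^ r) σ n = zcI m σ n := by
  unfold zcI
  refine Nat.card_congr (Equiv.subtypeEquivRight fun a => ?_)
  rw [IsCoprime.pow_right_iff hr]

theorem isPZ_pow {F L : Type*} [Field F] [NumberField F] [Field L] [NumberField L] [Algebra F L]
    (m : Ideal (𝓞 F)) {r : ℕ} (hr : 0 < r) (σ : Gal(L/F)) (Z : ℂ → ℂ) :
    IsPZ (m ^ r) σ Z ↔ IsPZ m σ Z := by
  unfold IsPZ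
  simp only [zcI_pow m hr]

private theorem lm_two {K : Type} [Field K] [NumberField K] (hK : finrank ℚ K = 2)
    {m : Ideal (𝓞 K)} (h0 : m ≠ ⊥) (h1 : m ≠ ⊤) : (2 : 𝓞 K) ∉ m ^ 3 := by
  intro h
  have h2 : Ideal.absNorm (m ^ 3) ∣ Ideal.absNorm (Ideal.span {(2 : 𝓞 K)}) := by
    apply Ideal.absNorm_dvd_absNorm_of_le
    rw [Ideal.span_singleton_le_iff_mem]
    exact h
  have h3 : Ideal.absNorm (Ideal.span {(2 : 𝓞 K)}) = 4 := by
    rw [Ideal.absNorm_span_singleton]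
    have h4 := Algebra.norm_algebraMap (R := ℤ) (S := 𝓞 K) (2 : ℤ)
    rw [RingOfIntegers.rank, hK] at h4
    have h5 : (algebraMap ℤ (𝓞 K)) 2 = 2 := by simp
    rw [h5] at h4
    rw [h4]
    rfl
  rw [h3, map_pow] at h2
  have h6 : Ideal.absNorm m ≠ 0 := by
    rw [Ne, Ideal.absNorm_eq_zero_iff]
    exact h0
  have h7 : Ideal.absNorm m ≠ 1 := by
    rw [Ne, Ideal.absNorm_eq_one_iff]
    exact h1
  have h8 : 2 ≤ Ideal.absNorm m := by omega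
  have h9 := Nat.le_of_dvd (by norm_num) h2
  have h10 : 2 ^ 3 ≤ Ideal.absNorm m ^ 3 := Nat.pow_le_pow_left h8 3
  omega

/-- The partial zeta functions of `H/K`, without the Euler factors at the prime factors of `m`,
modulus `m ∞₂`. -/
theorem literalM {K H : Type} [Field K] [NumberField K] [Field H] [NumberField H] [Algebra K H]
    [IsAbelianGalois K H] (hK : finrank ℚ K = 2) (i : H →+* ℂ) (hi : ∀ y, (i y).im = 0)
    {ι₂ : K →+* ℝ} (hι₂ : ∃ x : K, ((ι₂ x : ℝ) : ℂ) ≠ i (algebraMap K H x))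
    {m : Ideal (𝓞 K)} (h0 : m ≠ ⊥) (h1 : m ≠ ⊤)
    (hur : ∀ 𝔓 : Ideal (𝓞 H), 𝔓.IsPrime → 𝔓 ≠ ⊥ →
      IsCoprime (𝔓.comap (algebraMap (𝓞 K) (𝓞 H))) m →
      ¬ 𝔓 ^ 2 ∣ (𝔓.comap (algebraMap (𝓞 K) (𝓞 H))).map (algebraMap (𝓞 K) (𝓞 H)))
    (hmod : ∀ α : 𝓞 K, α - 1 ∈ m → 0 < ι₂ (α : K) →
      HasArtinSymbol (Ideal.span {α}) (1 : Gal(H/K)))
    (hconj : ∀ R : Gal(H/K), (∀ α : 𝓞 K, α - 1 ∈ m → ι₂ (α : K) < 0 →
        HasArtinSymbol (Ideal.span {α}) R) →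
      ∀ g : H →+* ℂ, (∃ x : K, g (algebraMap K H x) ≠ i (algebraMap K H x)) →
        ∀ y, g (R y) = starRingEnd ℂ (g y)) :
    ∃ G : Gal(H/K) → ℂ → ℂ, (∀ σ, IsPZ m σ (G σ)) ∧
      ∀ R : Gal(H/K), (∀ g : H →+* ℂ, (∃ x : K, g (algebraMap K H x) ≠ i (algebraMap K H x)) →
        ∀ y, g (R y) = starRingEnd ℂ (g y)) →
      ∀ σ, G σ 0 + G (R * σ) 0 = 0 ∧ deriv (G σ) 0 + deriv (G (R * σ)) 0 = 0 := by
  have hur' : ∀ 𝔮 : Ideal (𝓞 K), 𝔮.IsPrime → 𝔮 ≠ ⊥ → IsCoprime 𝔮 m → UnrAt H 𝔮 := by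
    intro 𝔮 h𝔮 h𝔮0 hc Q hQ hQ𝔮
    have hQ0 : Q ≠ ⊥ := by
      rintro rfl
      apply h𝔮0
      rw [← hQ𝔮]
      exact Ideal.comap_bot_of_injective _ (RingOfIntegers.algebraMap.injective K H)
    have h2 := hur Q hQ hQ0 (by rw [hQ𝔮]; exact hc)
    rwa [hQ𝔮] at h2
  have hle : m ^ 3 ≤ m := Ideal.pow_le_self (by norm_num)
  have hur3 : ∀ 𝔮 : Ideal (𝓞 K), 𝔮.IsPrime → 𝔮 ≠ ⊥ → IsCoprime 𝔮 (m ^ 3) → UnrAt H 𝔮 :=
    fun 𝔮 h2 h3 h4 => hur' 𝔮 h2 h3 ((IsCoprime.pow_right_iff (by norm_num)).1 h4)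
  obtain ⟨ι₁, hι₁⟩ := HeckeRQ.exists_real_embedding (K := K) i hi
  have hι : ι₁ ≠ ι₂ := by
    rintro rfl
    obtain ⟨x, hx⟩ := hι₂
    exact hx (hι₁ x)
  obtain ⟨R', hRR, hR'⟩ := exists_RM (H := H) h0 hur' hmod
  obtain ⟨hZ, hsum⟩ := heckeM hK hι (pow_ne_zero 3 h0) (lm_two hK h0 h1) hur3
    (fun α h2 h3 => hmod α (hle h2) h3) hRR (fun α h2 h3 => hR' α (hle h2) h3)
  choose G hG using hZ
  refine ⟨G, fun σ => (isPZ_pow m (by norm_num) σ _).1 (hG σ), fun R hR σ => ?_⟩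
  obtain ⟨g, hg⟩ := HeckeRQ.exists_embedding_over (H := H) ι₂
  have hg' : ∃ x : K, g (algebraMap K H x) ≠ i (algebraMap K H x) := by
    obtain ⟨x, hx⟩ := hι₂
    exact ⟨x, by rw [hg]; exact hx⟩
  have hRR' : R = R' := by
    ext y
    apply g.injective
    rw [hR g hg' y, hconj R' hR' g hg' y]
  rw [hRR']
  exact hsum σ _ _ (hG _) (hG _)

end Pool.Agent.HeckeM
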